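import Pool.Agent.H78.OD.Group

set_option autoImplicit false

/-!
# Groups generated by elements of odd order
-/

namespace Pool.Agent.H78.OR

open Finset Pool.Agent.H78.OD

variable {G : Type} [Group G] [Fintype G]

/-- a group generated by elements of odd order has no subgroup of index two -/
theorem index_ne_two {N : ℕ} (s : Fin N → G) (hodd : ∀ i, Odd (orderOf (s i)))
    (hgen : Subgroup.closure (Set.range s) = ⊤) (H : Subgroup G) : H.index ≠ 2 := by
  intro h
  have hsq : ∀ x : G, x ^ 2 ∈ H := fun x => Subgroup.sq_mem_of_index_two h x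
  have htop : H = ⊤ := by
    rw [eq_top_iff, ← hgen, Subgroup.closure_le]
    rintro _ ⟨i, rfl⟩
    obtain ⟨k, hk⟩ := hodd i
    have h1 : s i = (s i ^ (k + 1)) ^ 2 := by
      rw [← pow_mul]
      have : (k + 1) * 2 = orderOf (s i) + 1 := by omega
      rw [this, pow_add, pow_orderOf_eq_one, one_mul, pow_one]
    have h2 := hsq (s i ^ (k + 1))
    rw [← h1] at h2
    exact h2
  rw [htop, Subgroup.index_top] at h
  omega

theorem three_mul_card_le (h2 : ∀ H : Subgroup G, H.index ≠ 2) (H : Subgroup G) (hH : H ≠ ⊤) :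
    3 * Nat.card H ≤ Nat.card G := by
  have h1 := H.card_mul_index
  have h3 : H.index ≠ 0 := H.index_ne_zero_of_finite
  have h4 : H.index ≠ 1 := by
    intro hc
    exact hH (Subgroup.index_eq_one.1 hc)
  have h5 := h2 H
  have h6 : 3 ≤ H.index := by omega
  calc 3 * Nat.card H = Nat.card H * 3 := by ring
    _ ≤ Nat.card H * H.index := Nat.mul_le_mul_left _ h6
    _ = Nat.card G := h1

theorem three_orderOf_le (h2 : ∀ H : Subgroup G, H.index ≠ 2)
    (hna : ∃ a b : G, a * b ≠ b * a) (g : G) : 3 * orderOf g ≤ Nat.card G := by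
  rw [← Nat.card_zpowers]
  apply three_mul_card_le h2
  intro h
  obtain ⟨a, b, hab⟩ := hna
  have hcyc : IsCyclic G := ⟨⟨g, fun x => by
    have : x ∈ (⊤ : Subgroup G) := trivial
    rwa [← h] at this⟩⟩
  exact hab (hcyc.isMulCommutative.is_comm.comm a b)

theorem centralizer_ne_top {g : G} (hg : g ∉ Subgroup.center G) :
    Subgroup.centralizer ({g} : Set G) ≠ ⊤ := by
  intro htop
  apply hg
  rw [Subgroup.mem_center_iff]
  intro y
  have hy : y ∈ Subgroup.centralizer ({g} : Set G) := by rw [htop]; trivial
  rw [Subgroup.mem_centralizer_iff] at hy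
  exact (hy g rfl).symm

theorem three_card_centralizer_le (h2 : ∀ H : Subgroup G, H.index ≠ 2) {g : G}
    (hg : g ∉ Subgroup.center G) :
    3 * Nat.card (Subgroup.centralizer ({g} : Set G)) ≤ Nat.card G :=
  three_mul_card_le h2 _ (centralizer_ne_top hg)

open Classical in
theorem card_conj_le (g h : G) :
    (univ.filter fun x : G => x * g * x⁻¹ = h).card ≤
      Nat.card (Subgroup.centralizer ({g} : Set G)) := by
  by_cases hne : (univ.filter fun x : G => x * g * x⁻¹ = h) = ∅
  · rw [hne]; simp
  · obtain ⟨x0, hx0⟩ := Finset.nonempty_iff_ne_empty.2 hne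
    have hx0' : x0 * g * x0⁻¹ = h := by simpa using hx0
    rw [Nat.card_eq_fintype_card, ← Finset.card_univ]
    apply Finset.card_le_card_of_injOn
      (fun x => if hx : x0⁻¹ * x ∈ Subgroup.centralizer ({g} : Set G) then
        (⟨x0⁻¹ * x, hx⟩ : Subgroup.centralizer ({g} : Set G)) else 1)
    · intro x _
      simp
    · have key : ∀ x ∈ (univ.filter fun x : G => x * g * x⁻¹ = h),
          x0⁻¹ * x ∈ Subgroup.centralizer ({g} : Set G) := by
        intro x hx
        have hx' : x * g * x⁻¹ = h := by simpa using hx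
        rw [Subgroup.mem_centralizer_iff]
        intro y hy
        rw [Set.mem_singleton_iff] at hy
        subst hy
        have h1 : x * y * x⁻¹ = x0 * y * x0⁻¹ := by rw [hx', hx0']
        have h2 : x * y = x0 * y * x0⁻¹ * x := by rw [← h1]; group
        calc y * (x0⁻¹ * x) = x0⁻¹ * (x0 * y * x0⁻¹ * x) := by group
          _ = x0⁻¹ * (x * y) := by rw [h2]
          _ = x0⁻¹ * x * y := by group
      intro x hx x' hx' hxx
      have hx1 := key x (by simpa using hx)
      have hx2 := key x' (by simpa using hx')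
      simp only [hx1, hx2, dif_pos] at hxx
      have := congrArg Subtype.val hxx
      simpa using this

open Classical in
theorem three_card_conj_le (h2 : ∀ H : Subgroup G, H.index ≠ 2) (g h : G)
    (hg : g ∉ Subgroup.center G) :
    3 * (univ.filter fun x : G => x * g * x⁻¹ = h).card ≤ Nat.card G := by
  have h3 := card_conj_le g h
  have h4 := three_card_centralizer_le h2 hg
  omega

end Pool.Agent.H78.OR
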