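import Pool.Agent.H92.OG.Num

set_option autoImplicit false

/-!
# The lower bound for the pairing, for elements of odd order

The proof is that of `q_ge` (helper92).
-/

namespace Pool.Agent.H78.OR

open Finset Pool.Agent.H82.CO Pool.Agent.H92.OG

variable {G : Type} [Group G] [Fintype G]

theorem q_ge' {a b : G} (hoa : Odd (orderOf a)) (hob : Odd (orderOf b)) (ha : a ≠ 1)
    (hb : b ≠ 1) (hab : a ≠ b) :
    (1 - y a) * (1 - y b) / 4 - 5 / 108 * (z a * z b) ≤ q a b := by
  by_cases h : Subgroup.zpowers a = Subgroup.zpowers b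
  · have h1 := q_same hoa h hab
    have h2 : orderOf a = orderOf b := by
      rw [← Nat.card_zpowers, ← Nat.card_zpowers, h]
    have h3 : y b = y a := by rw [y, y, h2]
    have h4 : 0 ≤ y a := by rw [y]; positivity
    rw [z, z, h3]
    nlinarith
  · have h1 := q_diff a b
    have hma := orderOf_pos a
    have hmb := orderOf_pos b
    have h3a : 3 ≤ orderOf a := by
      have h4 : orderOf a ≠ 1 := fun h => ha (orderOf_eq_one_iff.1 h)
      obtain ⟨k, hk⟩ := hoa
      omega
    have h3b : 3 ≤ orderOf b := by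
      have h4 : orderOf b ≠ 1 := fun h => hb (orderOf_eq_one_iff.1 h)
      obtain ⟨k, hk⟩ := hob
      omega
    have hca : Nat.card (Subgroup.zpowers a ⊓ Subgroup.zpowers b : Subgroup G) ∣ orderOf a := by
      rw [← Nat.card_zpowers]
      exact Subgroup.card_dvd_of_le inf_le_left
    have hcb : Nat.card (Subgroup.zpowers a ⊓ Subgroup.zpowers b : Subgroup G) ∣ orderOf b := by
      rw [← Nat.card_zpowers]
      exact Subgroup.card_dvd_of_le inf_le_right
    have hne : ¬ (Nat.card (Subgroup.zpowers a ⊓ Subgroup.zpowers b : Subgroup G) = orderOf a ∧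
        Nat.card (Subgroup.zpowers a ⊓ Subgroup.zpowers b : Subgroup G) = orderOf b) := by
      rintro ⟨h4, h5⟩
      apply h
      have h6 : (Subgroup.zpowers a ⊓ Subgroup.zpowers b : Subgroup G) = Subgroup.zpowers a :=
        Subgroup.eq_of_le_of_card_ge inf_le_left (by rw [Nat.card_zpowers, h4])
      have h7 : (Subgroup.zpowers a ⊓ Subgroup.zpowers b : Subgroup G) = Subgroup.zpowers b :=
        Subgroup.eq_of_le_of_card_ge inf_le_right (by rw [Nat.card_zpowers, h5])
      rw [← h6, h7]
    generalize Nat.card (Subgroup.zpowers a ⊓ Subgroup.zpowers b : Subgroup G) = c at *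
    obtain ⟨u, hu⟩ := hca
    obtain ⟨v, hv⟩ := hcb
    have huo : Odd u := hoa.of_dvd_nat ⟨c, by rw [hu, mul_comm]⟩
    have hvo : Odd v := hob.of_dvd_nat ⟨c, by rw [hv, mul_comm]⟩
    have hco : Odd c := hoa.of_dvd_nat ⟨u, hu⟩
    have hc0 : 0 < c := by obtain ⟨k, hk⟩ := hco; omega
    have huv : 3 ≤ u ∨ 3 ≤ v := by
      by_contra hcon
      push Not at hcon
      obtain ⟨k, hk⟩ := huo
      obtain ⟨l, hl⟩ := hvo
      have h4 : u = 1 := by omega
      have h5 : v = 1 := by omega
      exact hne ⟨by rw [hu, h4, mul_one], by rw [hv, h5, mul_one]⟩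
    have hu1 : 1 ≤ u := by obtain ⟨k, hk⟩ := huo; omega
    have hv1 : 1 ≤ v := by obtain ⟨k, hk⟩ := hvo; omega
    have hma' : (0 : ℝ) < orderOf a := by exact_mod_cast hma
    have hmb' : (0 : ℝ) < orderOf b := by exact_mod_cast hmb
    have h3a' : (3 : ℝ) ≤ orderOf a := by exact_mod_cast h3a
    have h3b' : (3 : ℝ) ≤ orderOf b := by exact_mod_cast h3b
    have key : ((c : ℝ) - 1) * (c - 5) ≤ 5 / 9 * ((orderOf a - 3) * (orderOf b - 3)) := by
      rcases Nat.lt_or_ge c 3 with hc | hc
      · have h4 : c = 1 := by obtain ⟨k, hk⟩ := hco; omega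
        rw [h4]
        have h5 : 0 ≤ ((orderOf a : ℝ) - 3) * (orderOf b - 3) :=
          mul_nonneg (by linarith) (by linarith)
        norm_num
        linarith
      · have hc' : (3 : ℝ) ≤ c := by exact_mod_cast hc
        have hA : (orderOf a : ℝ) = c * u := by exact_mod_cast hu
        have hB : (orderOf b : ℝ) = c * v := by exact_mod_cast hv
        have hu' : (1 : ℝ) ≤ u := by exact_mod_cast hu1
        have hv' : (1 : ℝ) ≤ v := by exact_mod_cast hv1
        have h5 : (c : ℝ) - 3 ≤ orderOf a - 3 := by rw [hA]; nlinarith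
        have h6 : (c : ℝ) - 3 ≤ orderOf b - 3 := by rw [hB]; nlinarith
        rcases huv with h7 | h7
        · have h8 : (3 : ℝ) ≤ u := by exact_mod_cast h7
          have h9 : 3 * ((c : ℝ) - 3) ≤ orderOf a - 3 := by rw [hA]; nlinarith
          have h10 : 3 * ((c : ℝ) - 3) * (c - 3) ≤ (orderOf a - 3) * (orderOf b - 3) :=
            mul_le_mul h9 h6 (by linarith) (by linarith)
          nlinarith
        · have h8 : (3 : ℝ) ≤ v := by exact_mod_cast h7
          have h9 : 3 * ((c : ℝ) - 3) ≤ orderOf b - 3 := by rw [hB]; nlinarith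
          have h10 : ((c : ℝ) - 3) * (3 * ((c : ℝ) - 3)) ≤ (orderOf a - 3) * (orderOf b - 3) :=
            mul_le_mul h5 h9 (by linarith) (by linarith)
          nlinarith
    refine le_trans ?_ h1
    have h11 : z a * z b = (orderOf a - 3) * (orderOf b - 3) / ((orderOf a : ℝ) * orderOf b) := by
      rw [z, z, y, y]
      field_simp
    have h12 : (((c : ℝ) - 1) * (5 - c)) / (12 * ((orderOf a : ℝ) * orderOf b)) =
        -(((c : ℝ) - 1) * (c - 5)) / ((orderOf a : ℝ) * orderOf b) / 12 := by
      rw [div_div, mul_comm ((orderOf a : ℝ) * orderOf b) 12]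
      congr 1
      ring
    have h13 : (((c : ℝ) - 1) * (c - 5)) / ((orderOf a : ℝ) * orderOf b) ≤
        5 / 9 * ((orderOf a - 3) * (orderOf b - 3)) / ((orderOf a : ℝ) * orderOf b) :=
      div_le_div_of_nonneg_right key (mul_pos hma' hmb').le
    rw [h12, h11, neg_div]
    have h14 : 5 / 9 * ((orderOf a - 3) * (orderOf b - 3)) / ((orderOf a : ℝ) * orderOf b) =
        5 / 9 * ((orderOf a - 3) * (orderOf b - 3) / ((orderOf a : ℝ) * orderOf b)) := by
      rw [mul_div_assoc]
    rw [h14] at h13
    linarith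

end Pool.Agent.H78.OR
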