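import Pool.Agent.H78.OD.Three
import Pool.Agent.H78.OR.Group
import Pool.Agent.H78.OR.NumO

set_option autoImplicit false

/-!
# The lower bound for the tensor square, generators of odd order
-/

namespace Pool.Agent.H78.OR

open Finset Pool.Agent.H82.CO Pool.Agent.H92.OG
open Pool.Agent.H78.OD (orderOf_conj y_conj z_conj z_le_one Zc Zs)

variable {G : Type} [Group G] [Fintype G] {N : ℕ}

omit [Fintype G] in
theorem three_le_orderOf {a : G} (ho : Odd (orderOf a)) (ha : a ≠ 1) : 3 ≤ orderOf a := by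
  have h2 : orderOf a ≠ 1 := by rwa [Ne, orderOf_eq_one_iff]
  obtain ⟨d, hd⟩ := ho
  omega

omit [Fintype G] in
theorem z_nonneg {a : G} (ho : Odd (orderOf a)) (ha : a ≠ 1) : 0 ≤ z a := by
  have h1 : (3 : ℝ) ≤ orderOf a := by exact_mod_cast three_le_orderOf ho ha
  have h2 : 1 / (orderOf a : ℝ) ≤ 1 / 3 := one_div_le_one_div_of_le (by norm_num) h1
  unfold z y
  linarith

open Classical in
/-- the sum over all conjugates of the second element -/
theorem sum_q_ge_aux {a b : G} (hoa : Odd (orderOf a)) (hob : Odd (orderOf b)) (ha : a ≠ 1)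
    (hb : b ≠ 1) :
    (Nat.card G : ℝ) * ((1 - y a) * (1 - y b) / 4) - z a * z b *
      ((Nat.card G : ℝ) * (5 / 108) + ((univ.filter fun w : G => w * b * w⁻¹ = a).card : ℝ) / 27) ≤
      ∑ w : G, q a (w * b * w⁻¹) := by
  have h1 : ∀ w : G, (1 - y a) * (1 - y b) / 4 -
      (z a * z b * (5 / 108) + if w * b * w⁻¹ = a then z a * z b / 27 else 0) ≤
      q a (w * b * w⁻¹) := by
    intro w
    by_cases hw : w * b * w⁻¹ = a
    · rw [if_pos hw, hw]
      have hy : y b = y a := by rw [← hw, y_conj]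
      have hz : z b = z a := by rw [← hw, z_conj]
      have h2 := q_ge_self a
      rw [hy, hz]
      linarith
    · rw [if_neg hw]
      have hb' : w * b * w⁻¹ ≠ 1 := by
        intro hc
        apply hb
        have : b = w⁻¹ * (w * b * w⁻¹) * w := by group
        rw [this, hc]; group
      have h2 := q_ge' hoa (by rw [orderOf_conj]; exact hob) ha hb' (Ne.symm hw)
      rw [y_conj, z_conj] at h2
      linarith
  have h2 := Finset.sum_le_sum (s := univ) fun w _ => h1 w
  refine le_trans (le_of_eq ?_) h2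
  rw [Finset.sum_sub_distrib, Finset.sum_add_distrib, Finset.sum_const, Finset.sum_const,
    ← Finset.sum_filter, Finset.sum_const, card_univ, Nat.card_eq_fintype_card]
  simp only [nsmul_eq_mul]
  ring

theorem sum_q_ge_all {a b : G} (hoa : Odd (orderOf a)) (hob : Odd (orderOf b)) (ha : a ≠ 1)
    (hb : b ≠ 1) :
    (Nat.card G : ℝ) * ((1 - y a) * (1 - y b) / 4 - z a * z b / 12) ≤
      ∑ w : G, q a (w * b * w⁻¹) := by
  classical
  refine le_trans ?_ (sum_q_ge_aux hoa hob ha hb)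
  have hz : 0 ≤ z a * z b := mul_nonneg (z_nonneg hoa ha) (z_nonneg hob hb)
  have hc : ((univ.filter fun w : G => w * b * w⁻¹ = a).card : ℝ) ≤ Nat.card G := by
    rw [Nat.card_eq_fintype_card]
    exact_mod_cast card_le_univ _
  have h1 : z a * z b * ((Nat.card G : ℝ) * (5 / 108) +
      ((univ.filter fun w : G => w * b * w⁻¹ = a).card : ℝ) / 27) ≤
      z a * z b * ((Nat.card G : ℝ) * (5 / 108) + (Nat.card G : ℝ) / 27) := by
    apply mul_le_mul_of_nonneg_left _ hz
    linarith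
  linarith

theorem sum_q_ge_noncentral (h2 : ∀ H : Subgroup G, H.index ≠ 2) {a b : G}
    (hoa : Odd (orderOf a)) (hob : Odd (orderOf b)) (ha : a ≠ 1) (hb : b ≠ 1)
    (h : a ∉ Subgroup.center G ∨ b ∉ Subgroup.center G) :
    (Nat.card G : ℝ) * ((1 - y a) * (1 - y b) / 4 - 19 / 324 * (z a * z b)) ≤
      ∑ w : G, q a (w * b * w⁻¹) := by
  classical
  refine le_trans ?_ (sum_q_ge_aux hoa hob ha hb)
  have hz : 0 ≤ z a * z b := mul_nonneg (z_nonneg hoa ha) (z_nonneg hob hb)
  have hc3 : 3 * (univ.filter fun w : G => w * b * w⁻¹ = a).card ≤ Nat.card G := by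
    by_cases hbc : b ∈ Subgroup.center G
    · have ha' : a ∉ Subgroup.center G := by
        rcases h with h | h
        · exact h
        · exact absurd hbc h
      have hempty : (univ.filter fun w : G => w * b * w⁻¹ = a) = ∅ := by
        rw [filter_eq_empty_iff]
        intro w _ hw
        apply ha'
        have h3 : w * b * w⁻¹ = b := by
          rw [Subgroup.mem_center_iff.1 hbc w]; group
        rw [← hw, h3]; exact hbc
      rw [hempty]; simp
    · exact three_card_conj_le h2 b a hbc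
  have hc : ((univ.filter fun w : G => w * b * w⁻¹ = a).card : ℝ) ≤ Nat.card G / 3 := by
    rw [le_div_iff₀ (by norm_num)]
    have : ((3 * (univ.filter fun w : G => w * b * w⁻¹ = a).card : ℕ) : ℝ) ≤ Nat.card G := by
      exact_mod_cast hc3
    push_cast at this
    linarith
  have h1 : z a * z b * ((Nat.card G : ℝ) * (5 / 108) +
      ((univ.filter fun w : G => w * b * w⁻¹ = a).card : ℝ) / 27) ≤
      z a * z b * ((Nat.card G : ℝ) * (5 / 108) + (Nat.card G : ℝ) / 3 / 27) := by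
    apply mul_le_mul_of_nonneg_left _ hz
    linarith
  linarith

theorem sum_q_total (h2 : ∀ H : Subgroup G, H.index ≠ 2) (s : Fin N → G)
    (ho : ∀ i, Odd (orderOf (s i))) (hs : ∀ i, s i ≠ 1) :
    (Nat.card G : ℝ) * (nu s ^ 2 / 4 - 19 / 324 * Zs s ^ 2 - 8 / 324 * Zc s ^ 2) ≤
      ∑ i, ∑ j, ∑ w : G, q (s i) (w * s j * w⁻¹) := by
  classical
  have h1 : ∀ i j, (Nat.card G : ℝ) * ((1 - y (s i)) * (1 - y (s j)) / 4 -
      19 / 324 * (z (s i) * z (s j)) -
      8 / 324 * ((if s i ∈ Subgroup.center G then z (s i) else 0) *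
        (if s j ∈ Subgroup.center G then z (s j) else 0))) ≤
      ∑ w : G, q (s i) (w * s j * w⁻¹) := by
    intro i j
    by_cases hi : s i ∈ Subgroup.center G
    · by_cases hj : s j ∈ Subgroup.center G
      · rw [if_pos hi, if_pos hj]
        refine le_trans (le_of_eq ?_) (sum_q_ge_all (ho i) (ho j) (hs i) (hs j))
        ring
      · rw [if_neg hj]
        refine le_trans (le_of_eq ?_)
          (sum_q_ge_noncentral h2 (ho i) (ho j) (hs i) (hs j) (Or.inr hj))
        ring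
    · rw [if_neg hi]
      refine le_trans (le_of_eq ?_)
        (sum_q_ge_noncentral h2 (ho i) (ho j) (hs i) (hs j) (Or.inl hi))
      ring
  have h3 := Finset.sum_le_sum (s := univ) fun i _ =>
    Finset.sum_le_sum (s := (univ : Finset (Fin N))) fun j _ => h1 i j
  refine le_trans (le_of_eq ?_) h3
  have hnu : nu s = ∑ i, (1 - y (s i)) := rfl
  have e1 : nu s ^ 2 = ∑ i, ∑ j, (1 - y (s i)) * (1 - y (s j)) := by
    rw [hnu, sq, Finset.sum_mul_sum]
  have e2 : Zs s ^ 2 = ∑ i, ∑ j, z (s i) * z (s j) := by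
    rw [Zs, sq, Finset.sum_mul_sum]
  have e3 : Zc s ^ 2 = ∑ i, ∑ j, (if s i ∈ Subgroup.center G then z (s i) else 0) *
        (if s j ∈ Subgroup.center G then z (s j) else 0) := by
    rw [Zc, sq, Finset.sum_mul_sum]
  rw [e1, e2, e3]
  simp only [Finset.mul_sum, Finset.sum_div, ← Finset.sum_sub_distrib]

theorem nu_eq (s : Fin N → G) : nu s = (2 * N + Zs s) / 3 := by
  have : nu s = ∑ i, (2 / 3 + z (s i) / 3) := by
    unfold nu
    apply Finset.sum_congr rfl
    intro i _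
    unfold z y
    ring
  have h3 : ∑ i, z (s i) / 3 = (∑ i, z (s i)) / 3 := (Finset.sum_div _ _ _).symm
  rw [this, sum_add_distrib, h3, Zs, sum_const, card_univ, Fintype.card_fin, nsmul_eq_mul]
  ring

/-- the lower bound for the sum of the squares of the character -/
theorem chi_sq_ge (h2 : ∀ H : Subgroup G, H.index ≠ 2) (s : Fin N → G)
    (ho : ∀ i, Odd (orderOf (s i))) (hs : ∀ i, s i ≠ 1) :
    (Nat.card G : ℝ) * ((Nat.card G : ℝ) *
      (9 * (2 * ((N : ℝ) - 3) + Zs s) ^ 2 - 19 * Zs s ^ 2 - 8 * Zc s ^ 2) / 324 - 1) ≤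
      (∑ g : G, chi s g ^ 2).re := by
  have hn : (0 : ℝ) < Nat.card G := by exact_mod_cast Nat.card_pos
  rw [sum_chi_sq]
  have h1 := mul_le_mul_of_nonneg_left (sum_q_total h2 s ho hs) hn.le
  have h6 : (nu s - 2) ^ 2 / 4 = 9 * (2 * ((N : ℝ) - 3) + Zs s) ^ 2 / 324 := by
    rw [nu_eq]; ring
  have h7 : (Nat.card G : ℝ) * ((Nat.card G : ℝ) *
      (9 * (2 * ((N : ℝ) - 3) + Zs s) ^ 2 - 19 * Zs s ^ 2 - 8 * Zc s ^ 2) / 324 - 1) =
      (Nat.card G : ℝ) ^ 2 * (1 - nu s) - Nat.card G + (Nat.card G : ℝ) * ((Nat.card G : ℝ) *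
        (nu s ^ 2 / 4 - 19 / 324 * Zs s ^ 2 - 8 / 324 * Zc s ^ 2)) := by
    have h8 : nu s ^ 2 / 4 = 9 * (2 * ((N : ℝ) - 3) + Zs s) ^ 2 / 324 + nu s - 1 := by
      rw [← h6]; ring
    rw [h8]; ring
  rw [h7]
  linarith

theorem two_quadInv (s : Fin N → G) :
    2 * (Nat.card G : ℝ) * (quadInv s).re =
      (∑ g : G, chi s g ^ 2).re + ∑ g : G, (chi s (g ^ 2)).re := by
  have hn : (0 : ℝ) < Nat.card G := by exact_mod_cast Nat.card_pos
  have h1 : (quadInv s).re = (1 / (2 * (Nat.card G : ℝ))) *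
      (∑ g : G, (chi s g ^ 2 + chi s (g ^ 2))).re := by
    unfold quadInv
    have : (1 / (2 * (Nat.card G : ℂ))) = ((1 / (2 * (Nat.card G : ℝ)) : ℝ) : ℂ) := by
      push_cast; rfl
    rw [this, Complex.re_ofReal_mul]
  rw [h1, sum_add_distrib, Complex.add_re, Complex.re_sum (f := fun g : G => chi s (g ^ 2))]
  field_simp

/-- both parts together -/
theorem quad_ge (h2 : ∀ H : Subgroup G, H.index ≠ 2) (s : Fin N → G)
    (ho : ∀ i, Odd (orderOf (s i))) (hs : ∀ i, s i ≠ 1) {b : ℝ}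
    (hb : (Nat.card G : ℝ) * (1 - b) ≤ ∑ g : G, (chi s (g ^ 2)).re) :
    (Nat.card G : ℝ) *
      (9 * (2 * ((N : ℝ) - 3) + Zs s) ^ 2 - 19 * Zs s ^ 2 - 8 * Zc s ^ 2) / 324 - b ≤
      2 * (quadInv s).re := by
  have hn : (0 : ℝ) < Nat.card G := by exact_mod_cast Nat.card_pos
  have h1 := chi_sq_ge h2 s ho hs
  have h3 := two_quadInv s
  have h4 : (Nat.card G : ℝ) * ((Nat.card G : ℝ) *
      (9 * (2 * ((N : ℝ) - 3) + Zs s) ^ 2 - 19 * Zs s ^ 2 - 8 * Zc s ^ 2) / 324 - b) ≤
      (Nat.card G : ℝ) * (2 * (quadInv s).re) := by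
    linarith
  exact le_of_mul_le_mul_left h4 hn

end Pool.Agent.H78.OR
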