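import Pool.Agent.H78.OR.Bound
import Pool.Agent.H66.OR.FSF
import Pool.Agent.H83.OR.Rt

set_option autoImplicit false

/-!
# The lower bound for the Frobenius-Schur sum
-/

namespace Pool.Agent.H78.OR

open Finset Pool.Agent.H82.CO Pool.Agent.H92.OG Pool.Agent.H83.OR Pool.Agent.H66.OR
open Pool.Agent.H78.OD (three_mul_le card_central_le)

variable {G : Type} [Group G] [Fintype G] {N : ℕ}

open Classical in
/-- the number of powers which are not central -/
noncomputable def nc (a : G) : ℕ :=
  ((Ico 1 (orderOf a)).filter fun k => a ^ k ∉ Subgroup.center G).card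

/-- at least two thirds of the powers of a non-central element are not central -/
theorem two_mul_orderOf_le {a : G} (ho : Odd (orderOf a)) (ha : a ∉ Subgroup.center G) :
    2 * orderOf a ≤ 3 * nc a := by
  classical
  have hm : 0 < orderOf a := orderOf_pos a
  set Zr := (range (orderOf a)).filter fun k => a ^ k ∈ Subgroup.center G with hZr
  have h1 : Zr.card ≤ Nat.card (Subgroup.zpowers a ⊓ Subgroup.center G : Subgroup G) := by
    rw [Nat.card_eq_fintype_card, ← Finset.card_univ]
    apply Finset.card_le_card_of_injOn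
      (fun k => if hk : a ^ k ∈ (Subgroup.zpowers a ⊓ Subgroup.center G : Subgroup G) then
        (⟨a ^ k, hk⟩ : (Subgroup.zpowers a ⊓ Subgroup.center G : Subgroup G)) else 1)
    · intro x _
      simp
    · have key : ∀ k ∈ Zr, a ^ k ∈ (Subgroup.zpowers a ⊓ Subgroup.center G : Subgroup G) := by
        intro k hk
        rw [hZr, mem_filter] at hk
        exact ⟨Subgroup.pow_mem _ (Subgroup.mem_zpowers a) k, hk.2⟩
      intro k hk l hl hkl
      have hk' := key k (by simpa using hk)
      have hl' := key l (by simpa using hl)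
      simp only [hk', hl', dif_pos] at hkl
      have h3 : a ^ k = a ^ l := congrArg Subtype.val hkl
      have hk2 : k ∈ Zr := by simpa using hk
      have hl2 : l ∈ Zr := by simpa using hl
      rw [hZr, mem_filter, mem_range] at hk2 hl2
      exact pow_injOn_Iio_orderOf hk2.1 hl2.1 h3
  have h2 : 3 * Nat.card (Subgroup.zpowers a ⊓ Subgroup.center G : Subgroup G) ≤ orderOf a := by
    apply three_mul_le ho
    · rw [← Nat.card_zpowers]
      exact Subgroup.card_dvd_of_le inf_le_left
    · intro hc
      apply ha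
      have h3 : (Subgroup.zpowers a ⊓ Subgroup.center G : Subgroup G) = Subgroup.zpowers a :=
        Subgroup.eq_of_le_of_card_ge inf_le_left (by rw [Nat.card_zpowers, hc])
      have h4 : a ∈ (Subgroup.zpowers a ⊓ Subgroup.center G : Subgroup G) := by
        rw [h3]; exact Subgroup.mem_zpowers a
      exact h4.2
  have h3 : nc a + Zr.card = orderOf a := by
    have h4 := Finset.card_filter_add_card_filter_not (s := range (orderOf a))
      (fun k => a ^ k ∈ Subgroup.center G)
    rw [card_range] at h4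
    have h5 : ((range (orderOf a)).filter fun k => ¬ a ^ k ∈ Subgroup.center G) =
        (Ico 1 (orderOf a)).filter fun k => a ^ k ∉ Subgroup.center G := by
      ext k
      simp only [mem_filter, mem_range, mem_Ico]
      constructor
      · rintro ⟨h6, h7⟩
        refine ⟨⟨?_, h6⟩, h7⟩
        rcases Nat.eq_zero_or_pos k with h8 | h8
        · exfalso
          apply h7
          rw [h8, pow_zero]
          exact Subgroup.one_mem _
        · exact h8
      · rintro ⟨⟨_, h6⟩, h7⟩
        exact ⟨h6, h7⟩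
    rw [h5, ← hZr] at h4
    rw [nc]
    omega
  omega

theorem sum_rt_le {a : G} (ho : Odd (orderOf a)) {b : ℝ} (hb1 : b ≤ rt (1 : G))
    (hb : ∀ k : ℕ, a ^ k ∉ Subgroup.center G → rt (a ^ k) ≤ b) :
    ∑ k ∈ Ico 1 (orderOf a), rt (a ^ k) ≤
      ((orderOf a : ℝ) - 1) * rt (1 : G) - (nc a : ℝ) * (rt (1 : G) - b) := by
  classical
  have hm : 0 < orderOf a := orderOf_pos a
  have h1 : ∀ k ∈ Ico 1 (orderOf a), rt (a ^ k) ≤
      rt (1 : G) - if a ^ k ∉ Subgroup.center G then rt (1 : G) - b else 0 := by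
    intro k _
    by_cases h : a ^ k ∈ Subgroup.center G
    · rw [if_neg (not_not.2 h), sub_zero]
      apply rt_le_one
      exact Odd.of_dvd_nat ho (orderOf_pow_dvd k)
    · rw [if_pos h]
      have := hb k h
      linarith
  refine le_trans (Finset.sum_le_sum h1) (le_of_eq ?_)
  rw [Finset.sum_sub_distrib, sum_const, ← Finset.sum_filter, sum_const, Nat.card_Ico, nc]
  simp only [nsmul_eq_mul]
  rw [Nat.cast_sub (by omega)]
  push_cast
  ring

/-- the lower bound for the Frobenius-Schur sum -/
theorem fs_ge (hna : ∃ a b : G, a * b ≠ b * a) (hN : 1 ≤ N) (s : Fin N → G)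
    (ho : ∀ i, Odd (orderOf (s i))) (hprod : (List.ofFn s).prod = 1)
    (hgen : Subgroup.closure (Set.range s) = ⊤) {b : ℝ}
    (hb : ∀ (i : Fin N) (k : ℕ), s i ^ k ∉ Subgroup.center G → rt (s i ^ k) ≤ b) :
    (Nat.card G : ℝ) * (1 - b) ≤ ∑ g : G, (chi s (g ^ 2)).re := by
  classical
  have hn : (0 : ℝ) < Nat.card G := by exact_mod_cast Nat.card_pos
  -- we may replace `b` by the minimum of `b` and `rt 1`
  suffices hmain : ∀ c : ℝ, c ≤ rt (1 : G) →
      (∀ (i : Fin N) (k : ℕ), s i ^ k ∉ Subgroup.center G → rt (s i ^ k) ≤ c) →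
      (Nat.card G : ℝ) * (1 - c) ≤ ∑ g : G, (chi s (g ^ 2)).re by
    refine le_trans ?_ (hmain (min b (rt (1 : G))) (min_le_right _ _) ?_)
    · apply mul_le_mul_of_nonneg_left _ hn.le
      have := min_le_left b (rt (1 : G))
      linarith
    · intro i k hk
      exact le_min (hb i k hk) (rt_le_one (Odd.of_dvd_nat (ho i) (orderOf_pow_dvd k)))
  intro c hc1 hc
  rw [fs_formula]
  set r1 := rt (1 : G) with hr1
  have hy : ∀ i, y (s i) * (orderOf (s i) : ℝ) = 1 := by
    intro i
    have : (0 : ℝ) < orderOf (s i) := by exact_mod_cast orderOf_pos (s i)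
    unfold y
    field_simp
  have hy0 : ∀ i, 0 ≤ y (s i) := by
    intro i
    unfold y
    positivity
  have h1 : ∀ i, y (s i) * ∑ k ∈ Ico 1 (orderOf (s i)), rt (s i ^ k) ≤
      (1 - y (s i)) * r1 - (y (s i) * nc (s i)) * (r1 - c) := by
    intro i
    refine le_trans (mul_le_mul_of_nonneg_left (sum_rt_le (ho i) hc1 (hc i)) (hy0 i))
      (le_of_eq ?_)
    have := hy i
    rw [← hr1]
    linear_combination r1 * this
  have h2 := Finset.sum_le_sum (s := univ) fun i (_ : i ∈ (univ : Finset (Fin N))) => h1 i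
  rw [Finset.sum_sub_distrib, ← Finset.sum_mul, ← Finset.sum_mul] at h2
  have hnu : nu s = ∑ i, (1 - y (s i)) := rfl
  rw [← hnu] at h2
  -- `K ≥ 2`
  have hK : 2 ≤ ∑ i, y (s i) * nc (s i) := by
    have h3 : ∀ i, (if s i ∉ Subgroup.center G then (2 / 3 : ℝ) else 0) ≤ y (s i) * nc (s i) := by
      intro i
      by_cases h : s i ∈ Subgroup.center G
      · rw [if_neg (not_not.2 h)]
        exact mul_nonneg (hy0 i) (Nat.cast_nonneg _)
      · rw [if_pos h]
        have h4 := two_mul_orderOf_le (ho i) h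
        have h5 : 2 * (orderOf (s i) : ℝ) ≤ 3 * nc (s i) := by exact_mod_cast h4
        have h6 := mul_le_mul_of_nonneg_left h5 (hy0 i)
        have h7 := hy i
        linarith
    have h4 := Finset.sum_le_sum (s := univ) fun i (_ : i ∈ (univ : Finset (Fin N))) => h3 i
    refine le_trans ?_ h4
    rw [← Finset.sum_filter, sum_const, nsmul_eq_mul]
    have h5 := card_central_le hna hN s hprod hgen
    have h6 := Finset.card_filter_add_card_filter_not (s := (univ : Finset (Fin N)))
      (fun i : Fin N => s i ∈ Subgroup.center G)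
    rw [card_univ, Fintype.card_fin] at h6
    have h7 : 3 ≤ (univ.filter fun i : Fin N => s i ∉ Subgroup.center G).card := by
      omega
    have h8 : (3 : ℝ) ≤ ((univ.filter fun i : Fin N => s i ∉ Subgroup.center G).card : ℝ) := by
      exact_mod_cast h7
    linarith
  have h5 : (2 : ℝ) * (r1 - c) ≤ (∑ i, y (s i) * nc (s i)) * (r1 - c) :=
    mul_le_mul_of_nonneg_right hK (by linarith)
  have h6 : ∑ i, y (s i) * ∑ k ∈ Ico 1 (orderOf (s i)), rt (s i ^ k) ≤
      nu s * r1 - 2 * (r1 - c) := by linarith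
  have h7 := mul_le_mul_of_nonneg_left h6 (by positivity : (0 : ℝ) ≤ (Nat.card G : ℝ) / 2)
  have h8 : (Nat.card G : ℝ) * (1 - c) = (Nat.card G : ℝ) + (Nat.card G : ℝ) * r1 * (nu s - 2) / 2 -
      (Nat.card G : ℝ) / 2 * (nu s * r1 - 2 * (r1 - c)) := by ring
  linarith

end Pool.Agent.H78.OR
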