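import Pool.Agent.H83.OR.Rt
import Pool.Agent.H15.OR.Class
import Pool.Agent.H78.OR.Group

set_option autoImplicit false

/-!
# Bounds for the number of square roots of an element of odd order
-/

namespace Pool.Agent.H78.OR

open Finset Pool.Agent.H82.CO Pool.Agent.H83.OR
open Pool.Agent.H78.OD (three_mul_le)

variable {G : Type} [Group G] [Fintype G]

omit [Fintype G] in
theorem zpowers_comm {c : G} : ∀ a ∈ Subgroup.zpowers c,
    ∀ x ∈ Subgroup.centralizer ({c} : Set G), a * x = x * a := by
  intro a ha x hx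
  obtain ⟨k, rfl⟩ := Subgroup.mem_zpowers_iff.1 ha
  rw [Subgroup.mem_centralizer_iff] at hx
  have h : Commute c x := hx c rfl
  exact h.zpow_left k

theorem rt_mul_orderOf_le {c : G} (hc : Odd (orderOf c)) :
    rt c * (orderOf c : ℝ) ≤ (Nat.card (Subgroup.centralizer ({c} : Set G)) : ℝ) := by
  have h := rt_mul_card_le hc (Subgroup.zpowers c) (by rw [Nat.card_zpowers]; exact hc)
    zpowers_comm
  rwa [Nat.card_zpowers] at h

theorem rt_nonneg (c : G) : 0 ≤ rt c := by
  classical
  rw [rt]
  apply Finset.sum_nonneg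
  intro u _
  split_ifs <;> norm_num

/-- the bound by the order -/
theorem rt_le_div (h2 : ∀ H : Subgroup G, H.index ≠ 2) {c : G} (hc : Odd (orderOf c))
    (hcc : c ∉ Subgroup.center G) : rt c * (3 * (orderOf c : ℝ)) ≤ (Nat.card G : ℝ) := by
  have h1 := rt_mul_orderOf_le hc
  have h3 : (3 : ℝ) * (Nat.card (Subgroup.centralizer ({c} : Set G)) : ℝ) ≤ Nat.card G := by
    exact_mod_cast three_card_centralizer_le h2 hcc
  linarith

/-- the bound by a twelfth -/
theorem rt_le_twelfth (h2 : ∀ H : Subgroup G, H.index ≠ 2) {c : G} (hc : Odd (orderOf c))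
    (hcc : c ∉ Subgroup.center G) : rt c ≤ (Nat.card G : ℝ) / 12 := by
  have h0 := rt_nonneg c
  have hq1 : orderOf c ≠ 1 := by
    intro h
    apply hcc
    rw [orderOf_eq_one_iff.1 h]
    exact Subgroup.one_mem _
  have h1 := rt_le_div h2 hc hcc
  rcases Nat.lt_or_ge (orderOf c) 5 with h | h
  · have h3 : orderOf c = 3 := by
      obtain ⟨k, hk⟩ := hc
      omega
    have hidx : (Subgroup.centralizer ({c} : Set G)).index ≠ 2 := h2 _
    have hidx0 : (Subgroup.centralizer ({c} : Set G)).index ≠ 0 :=
      Subgroup.index_ne_zero_of_finite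
    have hidx1 : (Subgroup.centralizer ({c} : Set G)).index ≠ 1 := by
      intro h4
      exact centralizer_ne_top hcc (Subgroup.index_eq_one.1 h4)
    have hmul := (Subgroup.centralizer ({c} : Set G)).card_mul_index
    by_cases h4 : (Subgroup.centralizer ({c} : Set G)).index = 3
    · obtain ⟨A, hA9, hAo, hA⟩ := Pool.Agent.H15.OR.exists_nine h2 c h3 h4
      have h5 := rt_mul_card_le hc A hAo hA
      rw [h4] at hmul
      have h6 : (Nat.card (Subgroup.centralizer ({c} : Set G)) : ℝ) * 3 = Nat.card G := by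
        exact_mod_cast hmul
      have h7 : (9 : ℝ) ≤ Nat.card A := by exact_mod_cast hA9
      have h8 : rt c * 9 ≤ rt c * (Nat.card A : ℝ) := mul_le_mul_of_nonneg_left h7 h0
      linarith
    · have h5 : 4 ≤ (Subgroup.centralizer ({c} : Set G)).index := by omega
      have h6 : (4 : ℝ) ≤ ((Subgroup.centralizer ({c} : Set G)).index : ℝ) := by exact_mod_cast h5
      have h7 : (Nat.card (Subgroup.centralizer ({c} : Set G)) : ℝ) *
          ((Subgroup.centralizer ({c} : Set G)).index : ℝ) = Nat.card G := by exact_mod_cast hmul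
      have h8 : (Nat.card (Subgroup.centralizer ({c} : Set G)) : ℝ) * 4 ≤ Nat.card G := by
        rw [← h7]
        exact mul_le_mul_of_nonneg_left h6 (Nat.cast_nonneg _)
      have h9 := rt_mul_orderOf_le hc
      rw [h3] at h9
      push_cast at h9
      linarith
  · have h3 : (5 : ℝ) ≤ orderOf c := by exact_mod_cast h
    have h4 : rt c * (3 * 5) ≤ rt c * (3 * (orderOf c : ℝ)) :=
      mul_le_mul_of_nonneg_left (by linarith) h0
    linarith

/-- the bound when there is a central element of odd order -/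
theorem rt_le_central (h2 : ∀ H : Subgroup G, H.index ≠ 2) {c w : G} (hc : Odd (orderOf c))
    (hcc : c ∉ Subgroup.center G) (hw : w ∈ Subgroup.center G) (hwo : Odd (orderOf w)) :
    rt c * (9 * (orderOf w : ℝ)) ≤ (Nat.card G : ℝ) := by
  have hcomm : ∀ (x : Subgroup.zpowers w) (y : Subgroup.zpowers c),
      Commute ((Subgroup.zpowers w).subtype x) ((Subgroup.zpowers c).subtype y) := by
    intro x y
    have hx : (x : G) ∈ Subgroup.center G := (Subgroup.zpowers_le.2 hw) x.2
    exact (Subgroup.mem_center_iff.1 hx (y : G)).symm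
  set f := MonoidHom.noncommCoprod (Subgroup.zpowers w).subtype (Subgroup.zpowers c).subtype hcomm
    with hf
  set A : Subgroup G := f.range with hA
  have hfap : ∀ x y, f (x, y) = (x : G) * (y : G) := by
    intro x y
    rfl
  have hwA : Subgroup.zpowers w ≤ A := by
    intro x hx
    exact ⟨(⟨x, hx⟩, 1), by rw [hfap]; simp⟩
  have hcA : c ∈ A := ⟨(1, ⟨c, Subgroup.mem_zpowers c⟩), by rw [hfap]; simp⟩
  have hdvd : Nat.card A ∣ Nat.card (Subgroup.zpowers w × Subgroup.zpowers c) :=
    Subgroup.card_range_dvd f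
  have hAo : Odd (Nat.card A) := by
    apply Odd.of_dvd_nat _ hdvd
    rw [Nat.card_prod, Nat.card_zpowers, Nat.card_zpowers]
    exact hwo.mul hc
  have hAcomm : ∀ a ∈ A, ∀ x ∈ Subgroup.centralizer ({c} : Set G), a * x = x * a := by
    rintro a ⟨⟨u, v⟩, rfl⟩ x hx
    rw [hfap]
    have h1 : (u : G) ∈ Subgroup.center G := (Subgroup.zpowers_le.2 hw) u.2
    have h3 : (v : G) * x = x * v := zpowers_comm (c := c) (v : G) v.2 x hx
    have h4 : x * (u : G) = u * x := Subgroup.mem_center_iff.1 h1 x
    calc (u : G) * v * x = u * (v * x) := by group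
      _ = u * (x * v) := by rw [h3]
      _ = (u * x) * v := by group
      _ = (x * u) * v := by rw [h4]
      _ = x * (u * v) := by group
  have h3A : 3 * orderOf w ≤ Nat.card A := by
    rw [← Nat.card_zpowers w]
    apply three_mul_le hAo (Subgroup.card_dvd_of_le hwA)
    intro h
    have h4 : Subgroup.zpowers w = A := Subgroup.eq_of_le_of_card_ge hwA (by rw [h])
    apply hcc
    have h5 : c ∈ Subgroup.zpowers w := by rw [h4]; exact hcA
    exact (Subgroup.zpowers_le.2 hw) h5
  have h1 := rt_mul_card_le hc A hAo hAcomm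
  have h3 : (3 : ℝ) * (Nat.card (Subgroup.centralizer ({c} : Set G)) : ℝ) ≤ Nat.card G := by
    exact_mod_cast three_card_centralizer_le h2 hcc
  have h4 : (3 : ℝ) * (orderOf w : ℝ) ≤ Nat.card A := by exact_mod_cast h3A
  have h5 := mul_le_mul_of_nonneg_left h4 (rt_nonneg c)
  linarith

end Pool.Agent.H78.OR
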