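import Pool.Agent.H78.OR.FSB
import Pool.Agent.H78.OR.Rts

set_option autoImplicit false

/-!
# The lower bound for the Frobenius-Schur sum, large orders
-/

namespace Pool.Agent.H78.OR

open Finset Pool.Agent.H82.CO Pool.Agent.H92.OG Pool.Agent.H83.OR Pool.Agent.H66.OR

variable {G : Type} [Group G] [Fintype G] {N : ℕ}

omit [Fintype G] in
open Classical in
theorem card_three_le (a : G) :
    ((Ico 1 (orderOf a)).filter fun k => (a ^ k) ^ 3 = 1).card ≤ 2 := by
  have hsub : ((Ico 1 (orderOf a)).filter fun k => (a ^ k) ^ 3 = 1) ⊆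
      {orderOf a / 3, 2 * orderOf a / 3} := by
    intro k hk
    rw [mem_filter, mem_Ico, ← pow_mul, ← orderOf_dvd_iff_pow_eq_one] at hk
    obtain ⟨⟨h1, h2⟩, c, hc⟩ := hk
    have hc3 : c < 3 := by
      by_contra hcon
      have h3 : 3 ≤ c := by omega
      have : orderOf a * 3 ≤ orderOf a * c := Nat.mul_le_mul_left _ h3
      omega
    simp only [mem_insert, mem_singleton]
    interval_cases c <;> omega
  exact le_trans (card_le_card hsub) card_le_two

omit [Fintype G] in
open Classical in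
theorem card_five_le (a : G) :
    ((Ico 1 (orderOf a)).filter fun k => (a ^ k) ^ 5 = 1).card ≤ 4 := by
  have hsub : ((Ico 1 (orderOf a)).filter fun k => (a ^ k) ^ 5 = 1) ⊆
      {orderOf a / 5, 2 * orderOf a / 5, 3 * orderOf a / 5, 4 * orderOf a / 5} := by
    intro k hk
    rw [mem_filter, mem_Ico, ← pow_mul, ← orderOf_dvd_iff_pow_eq_one] at hk
    obtain ⟨⟨h1, h2⟩, c, hc⟩ := hk
    have hc3 : c < 5 := by
      by_contra hcon
      have h3 : 5 ≤ c := by omega
      have : orderOf a * 5 ≤ orderOf a * c := Nat.mul_le_mul_left _ h3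
      omega
    simp only [mem_insert, mem_singleton]
    interval_cases c <;> omega
  exact le_trans (card_le_card hsub) card_le_four

/-- the sum over the powers -/
theorem sum_rt_le_seven (h2 : ∀ H : Subgroup G, H.index ≠ 2) {a : G} (ho : Odd (orderOf a))
    (hnc : ∀ k : ℕ, a ^ k ≠ 1 → a ^ k ∉ Subgroup.center G) {b : ℝ}
    (hb : b = min (rt (1 : G)) ((Nat.card G : ℝ) / 21)) :
    ∑ k ∈ Ico 1 (orderOf a), rt (a ^ k) ≤
      ((orderOf a : ℝ) - 7) * b + 22 / 45 * (Nat.card G : ℝ) := by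
  classical
  have hn : (0 : ℝ) < Nat.card G := by exact_mod_cast Nat.card_pos
  have hb1 : b ≤ rt (1 : G) := by rw [hb]; exact min_le_left _ _
  have hb2 : b ≤ (Nat.card G : ℝ) / 21 := by rw [hb]; exact min_le_right _ _
  have hm : 0 < orderOf a := orderOf_pos a
  have h1 : ∀ k ∈ Ico 1 (orderOf a), rt (a ^ k) ≤
      b + ((if (a ^ k) ^ 3 = 1 then (Nat.card G : ℝ) / 9 - b else 0) +
        (if (a ^ k) ^ 5 = 1 then (Nat.card G : ℝ) / 15 - b else 0)) := by
    intro k hk
    rw [mem_Ico] at hk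
    have hne : a ^ k ≠ 1 := by
      intro h
      have := Nat.le_of_dvd (by omega) (orderOf_dvd_of_pow_eq_one h)
      omega
    have hodd : Odd (orderOf (a ^ k)) := Odd.of_dvd_nat ho (orderOf_pow_dvd k)
    have hcc := hnc k hne
    have hr := rt_le_div h2 hodd hcc
    have hr0 := rt_nonneg (a ^ k)
    have hr1 := rt_le_one hodd
    have h3pos : 0 ≤ (if (a ^ k) ^ 3 = 1 then (Nat.card G : ℝ) / 9 - b else 0) := by
      split_ifs
      · linarith
      · exact le_rfl
    have h5pos : 0 ≤ (if (a ^ k) ^ 5 = 1 then (Nat.card G : ℝ) / 15 - b else 0) := by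
      split_ifs
      · linarith
      · exact le_rfl
    have hq1 : orderOf (a ^ k) ≠ 1 := by
      intro h
      exact hne (orderOf_eq_one_iff.1 h)
    rcases Nat.lt_or_ge (orderOf (a ^ k)) 7 with h | h
    · have h35 : orderOf (a ^ k) = 3 ∨ orderOf (a ^ k) = 5 := by
        obtain ⟨j, hj⟩ := hodd
        omega
      rcases h35 with h3 | h5
      · have hp3 : (a ^ k) ^ 3 = 1 := by
          rw [← h3]; exact pow_orderOf_eq_one _
        rw [if_pos hp3]
        rw [h3] at hr
        push_cast at hr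
        linarith
      · have hp5 : (a ^ k) ^ 5 = 1 := by
          rw [← h5]; exact pow_orderOf_eq_one _
        rw [if_pos hp5]
        rw [h5] at hr
        push_cast at hr
        linarith
    · have h7 : (7 : ℝ) ≤ orderOf (a ^ k) := by exact_mod_cast h
      have h8 : rt (a ^ k) * (3 * 7) ≤ rt (a ^ k) * (3 * (orderOf (a ^ k) : ℝ)) :=
        mul_le_mul_of_nonneg_left (by linarith) hr0
      have h9 : rt (a ^ k) ≤ b := by
        rw [hb]
        apply le_min hr1
        linarith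
      linarith
  have h3 := Finset.sum_le_sum h1
  rw [Finset.sum_add_distrib, Finset.sum_add_distrib, sum_const, ← Finset.sum_filter,
    ← Finset.sum_filter, sum_const, sum_const, Nat.card_Ico] at h3
  simp only [nsmul_eq_mul] at h3
  rw [Nat.cast_sub (by omega)] at h3
  have h4 : (((Ico 1 (orderOf a)).filter fun k => (a ^ k) ^ 3 = 1).card : ℝ) ≤ 2 := by
    exact_mod_cast card_three_le a
  have h5 : (((Ico 1 (orderOf a)).filter fun k => (a ^ k) ^ 5 = 1).card : ℝ) ≤ 4 := by
    exact_mod_cast card_five_le a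
  have h6 := mul_le_mul_of_nonneg_right h4 (by linarith : 0 ≤ (Nat.card G : ℝ) / 9 - b)
  have h7 := mul_le_mul_of_nonneg_right h5 (by linarith : 0 ≤ (Nat.card G : ℝ) / 15 - b)
  push_cast at h3
  linarith

/-- the refined lower bound for four generators of large orders -/
theorem fs_ge_seven (h2 : ∀ H : Subgroup G, H.index ≠ 2) (s : Fin 4 → G)
    (ho : ∀ i, Odd (orderOf (s i)))
    (hnc : ∀ (i : Fin 4) (k : ℕ), s i ^ k ≠ 1 → s i ^ k ∉ Subgroup.center G) {Y : ℝ}
    (hY : Y = ∑ i, y (s i)) (hY1 : Y ≤ 1 / 3) :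
    (Nat.card G : ℝ) * (1 - (Nat.card G : ℝ) * (1 / 21 + 32 / 315 * Y)) ≤
      ∑ g : G, (chi s (g ^ 2)).re := by
  have hn : (0 : ℝ) < Nat.card G := by exact_mod_cast Nat.card_pos
  obtain ⟨b, hb⟩ : ∃ b, b = min (rt (1 : G)) ((Nat.card G : ℝ) / 21) := ⟨_, rfl⟩
  have hb1 : b ≤ rt (1 : G) := by rw [hb]; exact min_le_left _ _
  have hb2 : b ≤ (Nat.card G : ℝ) / 21 := by rw [hb]; exact min_le_right _ _
  have hy : ∀ i, y (s i) * (orderOf (s i) : ℝ) = 1 := by
    intro i
    have : (0 : ℝ) < orderOf (s i) := by exact_mod_cast orderOf_pos (s i)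
    unfold y
    field_simp
  have hy0 : ∀ i, 0 ≤ y (s i) := by
    intro i
    unfold y
    positivity
  have h1 : ∀ i, y (s i) * ∑ k ∈ Ico 1 (orderOf (s i)), rt (s i ^ k) ≤
      b + y (s i) * (22 / 45 * (Nat.card G : ℝ) - 7 * b) := by
    intro i
    refine le_trans (mul_le_mul_of_nonneg_left (sum_rt_le_seven h2 (ho i) (hnc i) hb) (hy0 i))
      (le_of_eq ?_)
    have := hy i
    linear_combination b * this
  have h3 := Finset.sum_le_sum (s := univ) fun i (_ : i ∈ (univ : Finset (Fin 4))) => h1 i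
  rw [Finset.sum_add_distrib, ← Finset.sum_mul, ← hY, sum_const, card_univ, Fintype.card_fin,
    nsmul_eq_mul] at h3
  push_cast at h3
  have hnu : nu s = 4 - Y := by
    have : nu s = ∑ i, (1 - y (s i)) := rfl
    rw [this, Finset.sum_sub_distrib, ← hY, sum_const, card_univ, Fintype.card_fin, nsmul_eq_mul]
    push_cast
    ring
  rw [fs_formula, hnu]
  have h4 := mul_le_mul_of_nonneg_left h3 (by positivity : (0 : ℝ) ≤ (Nat.card G : ℝ) / 2)
  have hY2 : 0 ≤ 2 - Y := by linarith
  have h5 : (Nat.card G : ℝ) * b * (2 - Y) / 2 ≤ (Nat.card G : ℝ) * rt (1 : G) * (4 - Y - 2) / 2 := by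
    have h6 : b * (2 - Y) ≤ rt (1 : G) * (2 - Y) := mul_le_mul_of_nonneg_right hb1 hY2
    have h7 := mul_le_mul_of_nonneg_left h6 hn.le
    linarith
  have h8 : b * (1 - 3 * Y) ≤ (Nat.card G : ℝ) / 21 * (1 - 3 * Y) :=
    mul_le_mul_of_nonneg_right hb2 (by linarith)
  have h9 := mul_le_mul_of_nonneg_left h8 hn.le
  linarith

end Pool.Agent.H78.OR
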