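import Mathlib

set_option autoImplicit false

/-!
# The elementary inequalities, generators of odd order
-/

namespace Pool.Agent.H78.OR

/-- dimension at least two -/
theorem ineq_five {n M Z Zc : ℝ} (hn : 12 ≤ n) (hM : 2 ≤ M) (hZ0 : 0 ≤ Z) (hZ : Z ≤ M + 3)
    (hc0 : 0 ≤ Zc) (hcM : Zc ≤ M) (hcZ : Zc ≤ Z) :
    2 * M < n * (9 * (2 * M + Z) ^ 2 - 19 * Z ^ 2 - 8 * Zc ^ 2) / 324 - n / 12 := by
  have h1 : Zc ^ 2 ≤ M * Z := by nlinarith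
  have h2 : 0 ≤ Z * (28 * M - 10 * Z) := mul_nonneg hZ0 (by linarith)
  have h3 : 36 * M ^ 2 ≤ 9 * (2 * M + Z) ^ 2 - 19 * Z ^ 2 - 8 * Zc ^ 2 := by nlinarith
  have h4 : n * (36 * M ^ 2) ≤ n * (9 * (2 * M + Z) ^ 2 - 19 * Z ^ 2 - 8 * Zc ^ 2) :=
    mul_le_mul_of_nonneg_left h3 (by linarith)
  have h5 : 12 * (36 * M ^ 2 - 27) ≤ n * (36 * M ^ 2 - 27) :=
    mul_le_mul_of_nonneg_right hn (by nlinarith)
  nlinarith

/-- dimension one, a central element of odd order, no branch point with central monodromy of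
order larger than three -/
theorem ineq_central {n Z : ℝ} (hn : 31 ≤ n) (hZ0 : 0 ≤ Z) (hZ : Z ≤ 4 - 36 / n) :
    2 < n * (9 * (2 * 1 + Z) ^ 2 - 19 * Z ^ 2 - 8 * 0 ^ 2) / 324 - n / 27 := by
  have hn0 : (0 : ℝ) < n := by linarith
  rcases le_total Z (18 / 5) with h | h
  · have h2 : 0 ≤ Z * (36 - 10 * Z) := mul_nonneg hZ0 (by linarith)
    have h3 : 0 ≤ n * (Z * (36 - 10 * Z)) := mul_nonneg hn0.le h2
    nlinarith
  · obtain ⟨u, hu⟩ : ∃ u, u = 4 - Z := ⟨_, rfl⟩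
    have hZu : Z = 4 - u := by linarith
    have hu1 : 36 / n ≤ u := by linarith
    have hu2 : u ≤ 2 / 5 := by linarith
    have hun : 36 ≤ u * n := by
      rw [div_le_iff₀ hn0] at hu1
      exact hu1
    have hu0 : 0 ≤ u := le_trans (by positivity) hu1
    have h3 : 0 ≤ n * (u * (4 - 10 * u)) :=
      mul_nonneg hn0.le (mul_nonneg hu0 (by linarith))
    rw [hZu]
    nlinarith

/-- dimension one, a central monodromy of order at least five -/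
theorem ineq_central' {n Z Zc : ℝ} (hn : 31 ≤ n) (hZ0 : 0 ≤ Z) (hZ : Z ≤ 4 - 36 / n)
    (hc0 : 0 ≤ Zc) (hc1 : Zc ≤ 1) (hcZ : Zc ≤ Z) :
    2 < n * (9 * (2 * 1 + Z) ^ 2 - 19 * Z ^ 2 - 8 * Zc ^ 2) / 324 - n / 45 := by
  have hn0 : (0 : ℝ) < n := by linarith
  have h1 : Zc ^ 2 ≤ Z := by nlinarith
  have h1' : Zc ^ 2 ≤ 1 := by nlinarith
  rcases le_total Z (14 / 5) with h | h
  · have h2 : 0 ≤ Z * (28 - 10 * Z) := mul_nonneg hZ0 (by linarith)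
    have h3 : 0 ≤ n * (Z * (28 - 10 * Z)) := mul_nonneg hn0.le h2
    have h4 : n * Zc ^ 2 ≤ n * Z := mul_le_mul_of_nonneg_left h1 hn0.le
    nlinarith
  · obtain ⟨u, hu⟩ : ∃ u, u = 4 - Z := ⟨_, rfl⟩
    have hZu : Z = 4 - u := by linarith
    have hu1 : 36 / n ≤ u := by linarith
    have hu2 : u ≤ 6 / 5 := by linarith
    have hun : 36 ≤ u * n := by
      rw [div_le_iff₀ hn0] at hu1
      exact hu1
    have hu0 : 0 ≤ u := le_trans (by positivity) hu1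
    have h3 : 0 ≤ n * (u * (12 - 10 * u)) :=
      mul_nonneg hn0.le (mul_nonneg hu0 (by linarith))
    have h4 : n * Zc ^ 2 ≤ n * 1 := mul_le_mul_of_nonneg_left h1' hn0.le
    rw [hZu]
    nlinarith

/-- dimension one, no central element of odd order, `Z` positive and not too large -/
theorem ineq_middle {n Z : ℝ} (hn : 31 ≤ n) (hZ0 : 2 / 5 ≤ Z) (hZ : Z ≤ 16 / 5) :
    2 < n * (9 * (2 * 1 + Z) ^ 2 - 19 * Z ^ 2 - 8 * 0 ^ 2) / 324 - n / 12 := by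
  have hn0 : (0 : ℝ) < n := by linarith
  have h2 : 0 ≤ (Z - 2 / 5) * (16 / 5 - Z) := mul_nonneg (by linarith) (by linarith)
  have h3 : 0 ≤ n * ((Z - 2 / 5) * (16 / 5 - Z)) := mul_nonneg hn0.le h2
  nlinarith

/-- dimension one, no central element of odd order, large `Z` -/
theorem ineq_large {n Z Y : ℝ} (hn : 0 < n) (hY : Z = 4 - 3 * Y) (hY1 : 12 / n ≤ Y)
    (hY2 : Y ≤ 4 / 15) :
    2 < n * (9 * (2 * 1 + Z) ^ 2 - 19 * Z ^ 2 - 8 * 0 ^ 2) / 324 -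
      n * (1 / 21 + 32 / 315 * Y) := by
  have hYn : 12 ≤ Y * n := by
    rw [div_le_iff₀ hn] at hY1
    exact hY1
  have hY0 : 0 ≤ Y := le_trans (by positivity) hY1
  have h3 : 0 ≤ n * (Y * (4 / 15 - Y)) := mul_nonneg hn.le (mul_nonneg hY0 (by linarith))
  rw [hY]
  nlinarith

/-- linear growth, dimension at least two -/
theorem lin_five {n M Z Zc : ℝ} (hn : 0 < n) (hM : 2 ≤ M) (hZ0 : 0 ≤ Z) (hZ : Z ≤ M + 3)
    (hc0 : 0 ≤ Zc) (hcM : Zc ≤ M) (hcZ : Zc ≤ Z) :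
    8 / 567 * (n * M ^ 2) ≤ n * (9 * (2 * M + Z) ^ 2 - 19 * Z ^ 2 - 8 * Zc ^ 2) / 324 - n / 12 := by
  have h1 : Zc ^ 2 ≤ M * Z := by nlinarith
  have h2 : 0 ≤ Z * (28 * M - 10 * Z) := mul_nonneg hZ0 (by linarith)
  have h3 : 36 * M ^ 2 ≤ 9 * (2 * M + Z) ^ 2 - 19 * Z ^ 2 - 8 * Zc ^ 2 := by nlinarith
  have h4 : n * (36 * M ^ 2) ≤ n * (9 * (2 * M + Z) ^ 2 - 19 * Z ^ 2 - 8 * Zc ^ 2) :=
    mul_le_mul_of_nonneg_left h3 (by linarith)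
  have h5 : n * 4 ≤ n * M ^ 2 := mul_le_mul_of_nonneg_left (by nlinarith) hn.le
  nlinarith

/-- linear growth, a central element of odd order -/
theorem lin_central {n Z : ℝ} (hn : 0 < n) (hZ0 : 0 ≤ Z) (hZ : Z ≤ 4) :
    8 / 567 * n ≤ n * (9 * (2 * 1 + Z) ^ 2 - 19 * Z ^ 2 - 8 * 0 ^ 2) / 324 - n / 27 := by
  have h3 : 0 ≤ n * (Z * (4 - Z)) := mul_nonneg hn.le (mul_nonneg hZ0 (by linarith))
  have h4 : 0 ≤ n * (4 - Z) := mul_nonneg hn.le (by linarith)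
  nlinarith

/-- linear growth, a central monodromy of order at least five -/
theorem lin_central' {n Z Zc : ℝ} (hn : 0 < n) (hZ0 : 0 ≤ Z) (hZ : Z ≤ 4)
    (hc0 : 0 ≤ Zc) (hc1 : Zc ≤ 1) (hcZ : Zc ≤ Z) :
    8 / 567 * n ≤ n * (9 * (2 * 1 + Z) ^ 2 - 19 * Z ^ 2 - 8 * Zc ^ 2) / 324 - n / 45 := by
  have h1 : Zc ^ 2 ≤ Z := by nlinarith
  have h1' : Zc ^ 2 ≤ 1 := by nlinarith
  rcases le_total Z (14 / 5) with h | h
  · have h2 : 0 ≤ Z * (28 - 10 * Z) := mul_nonneg hZ0 (by linarith)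
    have h3 : 0 ≤ n * (Z * (28 - 10 * Z)) := mul_nonneg hn.le h2
    have h4 : n * Zc ^ 2 ≤ n * Z := mul_le_mul_of_nonneg_left h1 hn.le
    nlinarith
  · have h3 : 0 ≤ n * ((Z - 14 / 5) * (4 - Z)) :=
      mul_nonneg hn.le (mul_nonneg (by linarith) (by linarith))
    have h4 : n * Zc ^ 2 ≤ n * 1 := mul_le_mul_of_nonneg_left h1' hn.le
    have h5 : 0 ≤ n * (4 - Z) := mul_nonneg hn.le (by linarith)
    nlinarith

/-- linear growth, no central element of odd order, `Z` positive and not too large -/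
theorem lin_middle {n Z : ℝ} (hn : 0 < n) (hZ0 : 2 / 5 ≤ Z) (hZ : Z ≤ 16 / 5) :
    8 / 567 * n ≤ n * (9 * (2 * 1 + Z) ^ 2 - 19 * Z ^ 2 - 8 * 0 ^ 2) / 324 - n / 12 := by
  have h2 : 0 ≤ (Z - 2 / 5) * (16 / 5 - Z) := mul_nonneg (by linarith) (by linarith)
  have h3 : 0 ≤ n * ((Z - 2 / 5) * (16 / 5 - Z)) := mul_nonneg hn.le h2
  nlinarith

/-- linear growth, no central element of odd order, large `Z` -/
theorem lin_large {n Z Y : ℝ} (hn : 0 < n) (hY : Z = 4 - 3 * Y) (hY0 : 0 ≤ Y)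
    (hY2 : Y ≤ 4 / 15) :
    8 / 567 * n ≤ n * (9 * (2 * 1 + Z) ^ 2 - 19 * Z ^ 2 - 8 * 0 ^ 2) / 324 -
      n * (1 / 21 + 32 / 315 * Y) := by
  have h3 : 0 ≤ n * (Y * (4 / 15 - Y)) := mul_nonneg hn.le (mul_nonneg hY0 (by linarith))
  have h4 : 0 ≤ n * Y := mul_nonneg hn.le hY0
  rw [hY]
  nlinarith

end Pool.Agent.H78.OR
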