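import Pool.Agent.H78.OR.FSB
import Pool.Agent.H78.OR.Rts
import Pool.Agent.H81.OGF.Conj

set_option autoImplicit false

/-!
# Four generators of order three
-/

namespace Pool.Agent.H78.OR

open Finset Pool.Agent.H82.CO Pool.Agent.H92.OG Pool.Agent.H83.OR Pool.Agent.H66.OR
open Pool.Agent.H78.OD (tc sum_q_three)

variable {G : Type} [Group G] [Fintype G]

/-- the centralizer gives elements conjugating the second cyclic group into the first -/
theorem card_centralizer_le_tc {a b : G}
    (h : ∃ x : G, Subgroup.zpowers (x * b * x⁻¹) = Subgroup.zpowers a) :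
    Nat.card (Subgroup.centralizer ({a} : Set G)) ≤ tc a b := by
  classical
  obtain ⟨x, hx⟩ := h
  have hxa : x * b * x⁻¹ ∈ Subgroup.zpowers a := by
    rw [← hx]; exact Subgroup.mem_zpowers _
  rw [Nat.card_eq_fintype_card, ← Finset.card_univ, tc]
  apply Finset.card_le_card_of_injOn (fun u : Subgroup.centralizer ({a} : Set G) => (u : G) * x)
  · intro u _
    simp only [coe_filter, mem_univ, true_and, Set.mem_ofPred_eq]
    have h1 : (u : G) * x * b * ((u : G) * x)⁻¹ = u * (x * b * x⁻¹) * (u : G)⁻¹ := by group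
    have h2 : (x * b * x⁻¹) * (u : G) = u * (x * b * x⁻¹) := zpowers_comm _ hxa _ u.2
    have h3 : (u : G) * (x * b * x⁻¹) * (u : G)⁻¹ = x * b * x⁻¹ := by
      rw [← h2]; group
    rw [h1, h3, hx]
  · intro u _ v _ huv
    have : (u : G) = v := mul_right_cancel huv
    exact Subtype.ext this

theorem card_centralizer_le_tc_self (a : G) :
    Nat.card (Subgroup.centralizer ({a} : Set G)) ≤ tc a a :=
  card_centralizer_le_tc ⟨1, by simp⟩

omit [Fintype G] in
theorem centralizer_sq {a : G} (ha : orderOf a = 3) :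
    Subgroup.centralizer ({a ^ 2} : Set G) = Subgroup.centralizer ({a} : Set G) := by
  have h1 : a = (a ^ 2) ^ 2 := by
    rw [← pow_mul]
    have : a ^ 3 = 1 := by rw [← ha]; exact pow_orderOf_eq_one a
    calc a = a ^ 3 * a := by rw [this, one_mul]
      _ = a ^ (2 * 2) := by rw [← pow_succ]
  ext x
  rw [Subgroup.mem_centralizer_iff, Subgroup.mem_centralizer_iff]
  constructor
  · intro h y hy
    rw [Set.mem_singleton_iff] at hy
    subst hy
    have h2 : Commute (y ^ 2) x := h _ rfl
    have h3 : Commute ((y ^ 2) ^ 2) x := h2.pow_left 2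
    rw [← h1] at h3
    exact h3
  · intro h y hy
    rw [Set.mem_singleton_iff] at hy
    subst hy
    have h2 : Commute a x := h _ rfl
    exact h2.pow_left 2

/-- the value of the half sum of the numbers of square roots -/
noncomputable def rr (a : G) : ℝ := (rt a + rt (a ^ 2)) / 2

theorem rr_le {a : G} (ha : orderOf a = 3) :
    3 * rr a ≤ (Nat.card (Subgroup.centralizer ({a} : Set G)) : ℝ) := by
  have ho : Odd (orderOf a) := by rw [ha]; decide
  have h1 := rt_mul_orderOf_le ho
  have ho2 : orderOf (a ^ 2) = 3 :=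
    (Nat.Coprime.orderOf_pow (by rw [ha]; decide)).trans ha
  have h2 := rt_mul_orderOf_le (c := a ^ 2) (by rw [ho2]; decide)
  rw [centralizer_sq ha, ho2] at h2
  rw [ha] at h1
  push_cast at h1 h2
  unfold rr
  linarith

/-- the bound for four generators of order three -/
theorem bound_three (s : Fin 4 → G) (hs : ∀ i, orderOf (s i) = 3) {t : ℝ}
    (ht : t ≤ ∑ i, ∑ j, (tc (s i) (s j) : ℝ)) :
    (Nat.card G : ℝ) / 9 + t / 27 + rt (1 : G) / 3 - (∑ i, rr (s i)) / 3 ≤
      2 * (quadInv s).re := by
  have hn : (0 : ℝ) < Nat.card G := by exact_mod_cast Nat.card_pos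
  have h1 := two_quadInv s
  have hnu : nu s = 8 / 3 := by
    unfold nu
    simp only [hs, sum_const, card_univ, Fintype.card_fin, nsmul_eq_mul]
    norm_num
  have hfs : ∑ g : G, (chi s (g ^ 2)).re =
      (Nat.card G : ℝ) * (1 + rt (1 : G) / 3 - (∑ i, rr (s i)) / 3) := by
    rw [fs_formula, hnu]
    have h2 : ∀ i, y (s i) * ∑ k ∈ Ico 1 (orderOf (s i)), rt (s i ^ k) = 2 / 3 * rr (s i) := by
      intro i
      have h3 : Ico 1 (orderOf (s i)) = {1, 2} := by rw [hs i]; rfl
      rw [h3, sum_pair (by norm_num), pow_one]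
      unfold y rr
      rw [hs i]
      push_cast
      ring
    rw [Finset.sum_congr rfl fun i _ => h2 i, ← Finset.mul_sum]
    ring
  rw [sum_chi_sq, hnu] at h1
  have h2 : 16 * (Nat.card G : ℝ) / 9 + t / 27 ≤
      ∑ i, ∑ j, ∑ w : G, q (s i) (w * s j * w⁻¹) := by
    have h3 := Finset.sum_le_sum (s := (univ : Finset (Fin 4))) fun i _ =>
      Finset.sum_le_sum (s := (univ : Finset (Fin 4))) fun j _ => sum_q_three (hs i) (hs j)
    refine le_trans ?_ h3
    simp only [sum_add_distrib, sum_const, card_univ, Fintype.card_fin, nsmul_eq_mul,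
      ← Finset.sum_div]
    push_cast
    linarith
  have h3 := mul_le_mul_of_nonneg_left h2 hn.le
  rw [hfs] at h1
  have h4 : (Nat.card G : ℝ) * ((Nat.card G : ℝ) / 9 + t / 27 + rt (1 : G) / 3 -
      (∑ i, rr (s i)) / 3) ≤ (Nat.card G : ℝ) * (2 * (quadInv s).re) := by
    linarith
  exact le_of_mul_le_mul_left h4 hn

/-- four generators of order three -/
theorem three_large (h2 : ∀ H : Subgroup G, H.index ≠ 2) (s : Fin 4 → G)
    (hs : ∀ i, orderOf (s i) = 3) (hnc : ∀ i, s i ∉ Subgroup.center G) :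
    7 / 108 * (Nat.card G : ℝ) ≤ 2 * (quadInv s).re := by
  obtain ⟨b, hb⟩ : ∃ b, b = min (rt (1 : G)) ((Nat.card G : ℝ) / 12) := ⟨_, rfl⟩
  have hb1 : b ≤ rt (1 : G) := by rw [hb]; exact min_le_left _ _
  have hb2 : b ≤ (Nat.card G : ℝ) / 12 := by rw [hb]; exact min_le_right _ _
  have ht : ∑ i, 3 * rr (s i) ≤ ∑ i, ∑ j, (tc (s i) (s j) : ℝ) := by
    apply Finset.sum_le_sum
    intro i _
    have h3 : (tc (s i) (s i) : ℝ) ≤ ∑ j, (tc (s i) (s j) : ℝ) :=
      Finset.single_le_sum (f := fun j => (tc (s i) (s j) : ℝ))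
        (fun j _ => Nat.cast_nonneg _) (mem_univ i)
    have h4 : (Nat.card (Subgroup.centralizer ({s i} : Set G)) : ℝ) ≤ (tc (s i) (s i) : ℝ) := by
      exact_mod_cast card_centralizer_le_tc_self (s i)
    have h5 := rr_le (hs i)
    linarith
  have h1 := bound_three s hs ht
  rw [← Finset.mul_sum] at h1
  have h3 : ∀ i, rr (s i) ≤ b := by
    intro i
    have ho : Odd (orderOf (s i)) := by rw [hs i]; decide
    have ho2 : orderOf (s i ^ 2) = 3 :=
      (Nat.Coprime.orderOf_pow (by rw [hs i]; decide)).trans (hs i)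
    have hnc2 : s i ^ 2 ∉ Subgroup.center G := by
      intro h
      apply hnc i
      have h4 : s i = (s i ^ 2) ^ 2 := by
        rw [← pow_mul]
        have : s i ^ 3 = 1 := by rw [← hs i]; exact pow_orderOf_eq_one (s i)
        calc s i = s i ^ 3 * s i := by rw [this, one_mul]
          _ = s i ^ (2 * 2) := by rw [← pow_succ]
      rw [h4]
      exact Subgroup.pow_mem _ h 2
    have e1 : rt (s i) ≤ b := by
      rw [hb]
      exact le_min (rt_le_one ho) (rt_le_twelfth h2 ho (hnc i))
    have e2 : rt (s i ^ 2) ≤ b := by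
      rw [hb]
      exact le_min (rt_le_one (by rw [ho2]; decide)) (rt_le_twelfth h2 (by rw [ho2]; decide) hnc2)
    unfold rr
    linarith
  have h4 := Finset.sum_le_sum (s := univ) fun i (_ : i ∈ (univ : Finset (Fin 4))) => h3 i
  rw [sum_const, card_univ, Fintype.card_fin, nsmul_eq_mul] at h4
  push_cast at h4
  linarith

/-- four generators of order three, the Sylow subgroups have order three -/
theorem three_small (h12 : Nat.card G = 12 ∨ Nat.card G = 24) (s : Fin 4 → G)
    (hs : ∀ i, orderOf (s i) = 3) : 1 < (quadInv s).re := by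
  have hfac : (Nat.card G).factorization 3 = 1 := by
    rcases h12 with h | h
    · rw [h, show (12 : ℕ) = 3 * 4 by norm_num, Nat.factorization_mul (by norm_num) (by norm_num)]
      simp [Nat.prime_three.factorization,
        Nat.factorization_eq_zero_of_not_dvd (by norm_num : ¬ 3 ∣ 4)]
    · rw [h, show (24 : ℕ) = 3 * 8 by norm_num, Nat.factorization_mul (by norm_num) (by norm_num)]
      simp [Nat.prime_three.factorization,
        Nat.factorization_eq_zero_of_not_dvd (by norm_num : ¬ 3 ∣ 8)]
  have ht : ∑ i, 4 * (Nat.card (Subgroup.centralizer ({s i} : Set G)) : ℝ) ≤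
      ∑ i, ∑ j, (tc (s i) (s j) : ℝ) := by
    apply Finset.sum_le_sum
    intro i _
    have h3 : ∀ j, (Nat.card (Subgroup.centralizer ({s i} : Set G)) : ℝ) ≤
        (tc (s i) (s j) : ℝ) := by
      intro j
      have h4 := Pool.Agent.H81.OGF.exists_conj Nat.prime_three hfac (hs i) (hs j)
      exact_mod_cast card_centralizer_le_tc h4
    have h4 := Finset.sum_le_sum (s := univ) fun j (_ : j ∈ (univ : Finset (Fin 4))) => h3 j
    rw [sum_const, card_univ, Fintype.card_fin, nsmul_eq_mul] at h4
    push_cast at h4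
    exact h4
  have h1 := bound_three s hs ht
  have h5 : ∀ i, rr (s i) ≤ (Nat.card (Subgroup.centralizer ({s i} : Set G)) : ℝ) / 3 := by
    intro i
    have := rr_le (hs i)
    linarith
  have h6 := Finset.sum_le_sum (s := univ) fun i (_ : i ∈ (univ : Finset (Fin 4))) => h5 i
  rw [← Finset.sum_div] at h6
  rw [← Finset.mul_sum] at h1
  have h7 : ∀ i, (3 : ℝ) ≤ (Nat.card (Subgroup.centralizer ({s i} : Set G)) : ℝ) := by
    intro i
    have h8 : Nat.card (Subgroup.zpowers (s i)) ≤
        Nat.card (Subgroup.centralizer ({s i} : Set G)) := by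
      apply Subgroup.card_le_of_le
      rw [Subgroup.zpowers_le, Subgroup.mem_centralizer_iff]
      intro y hy
      rw [Set.mem_singleton_iff.1 hy]
    rw [Nat.card_zpowers, hs i] at h8
    exact_mod_cast h8
  have h8 := Finset.sum_le_sum (s := univ) fun i (_ : i ∈ (univ : Finset (Fin 4))) => h7 i
  rw [sum_const, card_univ, Fintype.card_fin, nsmul_eq_mul] at h8
  push_cast at h8
  have h9 : (12 : ℝ) ≤ Nat.card G := by
    rcases h12 with h | h <;> rw [h] <;> norm_num
  have h10 := one_le_rt_one (G := G)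
  linarith

end Pool.Agent.H78.OR
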