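import Pool.Agent.H78.OD.Final
import Pool.Agent.H78.OR.FSC
import Pool.Agent.H78.OR.Three
import Pool.Agent.H78.OR.Ineq
import Pool.Agent.H81.OR.Even

set_option autoImplicit false

/-!
# Groups generated by elements of odd order: the criterion never holds
-/

namespace Pool.Agent.H78.OR

open Finset Pool.Agent.H82.CO Pool.Agent.H92.OG
open Pool.Agent.H78.OD (Zc Zs Zs_le Zc_le z_le_one z_le_of_order card_central_le)

variable {G : Type} [Group G] [Fintype G] {N : ℕ}

theorem Zs_nonneg (s : Fin N → G) (ho : ∀ i, Odd (orderOf (s i))) (hs : ∀ i, s i ≠ 1) :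
    0 ≤ Zs s :=
  Finset.sum_nonneg fun i _ => z_nonneg (ho i) (hs i)

theorem Zc_nonneg (s : Fin N → G) (ho : ∀ i, Odd (orderOf (s i))) (hs : ∀ i, s i ≠ 1) :
    0 ≤ Zc s := by
  classical
  apply Finset.sum_nonneg
  intro i _
  split_ifs
  · exact z_nonneg (ho i) (hs i)
  · exact le_rfl

theorem Zc_le_Zs (s : Fin N → G) (ho : ∀ i, Odd (orderOf (s i))) (hs : ∀ i, s i ≠ 1) :
    Zc s ≤ Zs s := by
  classical
  apply Finset.sum_le_sum
  intro i _
  split_ifs
  · exact le_rfl
  · exact z_nonneg (ho i) (hs i)

/-- dimension at least two -/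
theorem five_case (hna : ∃ a b : G, a * b ≠ b * a) (hN : 5 ≤ N) (s : Fin N → G)
    (ho : ∀ i, Odd (orderOf (s i))) (hs : ∀ i, s i ≠ 1) (hprod : (List.ofFn s).prod = 1)
    (hgen : Subgroup.closure (Set.range s) = ⊤) :
    (12 ≤ Nat.card G → (N : ℝ) - 3 < (quadInv s).re) ∧
      8 / 567 * ((Nat.card G : ℝ) * ((N : ℝ) - 3) ^ 2) ≤ 2 * (quadInv s).re := by
  have hn : (0 : ℝ) < Nat.card G := by exact_mod_cast Nat.card_pos
  have h2 := index_ne_two s ho hgen
  have hZ0 := Zs_nonneg s ho hs
  have hZ1 : Zs s ≤ N := by
    have := Zs_le (s := s) (b := 1) (fun i => z_le_one _)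
    linarith
  have hc0 := Zc_nonneg s ho hs
  have hc1 := Zc_le_Zs s ho hs
  have hc2 := Zc_le hna (by omega) s hprod hgen
  have hM : (2 : ℝ) ≤ (N : ℝ) - 3 := by
    have : (5 : ℝ) ≤ N := by exact_mod_cast hN
    linarith
  have hfs : (Nat.card G : ℝ) * (1 - (Nat.card G : ℝ) / 12) ≤ ∑ g : G, (chi s (g ^ 2)).re :=
    fs_ge hna (by omega) s ho hprod hgen fun i k hk =>
      rt_le_twelfth h2 (Odd.of_dvd_nat (ho i) (orderOf_pow_dvd k)) hk
  have hq := quad_ge h2 s ho hs hfs
  constructor
  · intro h12
    have hn12 : (12 : ℝ) ≤ Nat.card G := by exact_mod_cast h12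
    have h3 := ineq_five hn12 hM hZ0 (by linarith : Zs s ≤ ((N : ℝ) - 3) + 3) hc0 hc2 hc1
    linarith
  · have h3 := lin_five hn hM hZ0 (by linarith : Zs s ≤ ((N : ℝ) - 3) + 3) hc0 hc2 hc1
    linarith

/-- dimension one -/
theorem four_case (hna : ∃ a b : G, a * b ≠ b * a) (s : Fin 4 → G)
    (ho : ∀ i, Odd (orderOf (s i))) (hs : ∀ i, s i ≠ 1) (hprod : (List.ofFn s).prod = 1)
    (hgen : Subgroup.closure (Set.range s) = ⊤) :
    (31 ≤ Nat.card G → 1 < (quadInv s).re) ∧
      8 / 567 * (Nat.card G : ℝ) ≤ 2 * (quadInv s).re := by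
  classical
  have hn : (0 : ℝ) < Nat.card G := by exact_mod_cast Nat.card_pos
  have h2 := index_ne_two s ho hgen
  have hZ0 := Zs_nonneg s ho hs
  have hc0 := Zc_nonneg s ho hs
  have hc1 := Zc_le_Zs s ho hs
  have hc2 : Zc s ≤ 1 := by
    have := Zc_le hna (by omega) s hprod hgen
    push_cast at this
    linarith
  have hy3 : ∀ i, 3 / (Nat.card G : ℝ) ≤ y (s i) := by
    intro i
    have h6 : (0 : ℝ) < orderOf (s i) := by exact_mod_cast orderOf_pos (s i)
    have h7 : 3 * (orderOf (s i) : ℝ) ≤ Nat.card G := by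
      exact_mod_cast three_orderOf_le h2 hna (s i)
    unfold y
    rw [div_le_div_iff₀ hn h6]
    linarith
  have hhigh : Zs s ≤ 4 - 36 / (Nat.card G : ℝ) := by
    have h5 : ∀ i, z (s i) ≤ 1 - 9 / (Nat.card G : ℝ) := by
      intro i
      have h6 := hy3 i
      have h7 : 9 / (Nat.card G : ℝ) = 3 * (3 / (Nat.card G : ℝ)) := by ring
      unfold z
      linarith
    have h6 := Zs_le h5
    have h7 : (36 : ℝ) / (Nat.card G : ℝ) = 4 * (9 / (Nat.card G : ℝ)) := by ring
    push_cast at h6
    linarith
  have hhigh4 : Zs s ≤ 4 := by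
    have : 0 ≤ 36 / (Nat.card G : ℝ) := by positivity
    linarith
  have hM : (((4 : ℕ) : ℝ) - 3) = 1 := by norm_num
  by_cases hw : ∃ w : G, w ∈ Subgroup.center G ∧ Odd (orderOf w) ∧ w ≠ 1
  · by_cases hcz : ∃ i, s i ∈ Subgroup.center G ∧ orderOf (s i) ≠ 3
    · -- a central monodromy of order at least five
      obtain ⟨i, hi, hi3⟩ := hcz
      have h5 : 5 ≤ orderOf (s i) := by
        have h6 := three_le_orderOf (ho i) (hs i)
        obtain ⟨k, hk⟩ := ho i
        omega
      have h5' : (5 : ℝ) ≤ orderOf (s i) := by exact_mod_cast h5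
      have hfs : (Nat.card G : ℝ) * (1 - (Nat.card G : ℝ) / 45) ≤
          ∑ g : G, (chi s (g ^ 2)).re := by
        apply fs_ge hna (by omega) s ho hprod hgen
        intro j k hk
        have h7 := rt_le_central h2 (Odd.of_dvd_nat (ho j) (orderOf_pow_dvd k)) hk hi (ho i)
        have h8 : rt (s j ^ k) * (9 * 5) ≤ rt (s j ^ k) * (9 * (orderOf (s i) : ℝ)) :=
          mul_le_mul_of_nonneg_left (by linarith) (rt_nonneg _)
        linarith
      have hq := quad_ge h2 s ho hs hfs
      rw [hM] at hq
      constructor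
      · intro h31
        have hn31 : (31 : ℝ) ≤ Nat.card G := by exact_mod_cast h31
        have h3 := ineq_central' hn31 hZ0 hhigh hc0 hc2 hc1
        linarith
      · have h3 := lin_central' hn hZ0 hhigh4 hc0 hc2 hc1
        linarith
    · -- all central monodromies have order three
      have hZc : Zc s = 0 := by
        unfold Zc
        apply Finset.sum_eq_zero
        intro i _
        split_ifs with h
        · have h3 : orderOf (s i) = 3 := by
            by_contra h4
            exact hcz ⟨i, h, h4⟩
          unfold z y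
          rw [h3]; norm_num
        · rfl
      obtain ⟨w, hwc, hwo, hw1⟩ := hw
      have h3 : 3 ≤ orderOf w := three_le_orderOf hwo hw1
      have h3' : (3 : ℝ) ≤ orderOf w := by exact_mod_cast h3
      have hfs : (Nat.card G : ℝ) * (1 - (Nat.card G : ℝ) / 27) ≤
          ∑ g : G, (chi s (g ^ 2)).re := by
        apply fs_ge hna (by omega) s ho hprod hgen
        intro j k hk
        have h7 := rt_le_central h2 (Odd.of_dvd_nat (ho j) (orderOf_pow_dvd k)) hk hwc hwo
        have h8 : rt (s j ^ k) * (9 * 3) ≤ rt (s j ^ k) * (9 * (orderOf w : ℝ)) :=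
          mul_le_mul_of_nonneg_left (by linarith) (rt_nonneg _)
        linarith
      have hq := quad_ge h2 s ho hs hfs
      rw [hM, hZc] at hq
      constructor
      · intro h31
        have hn31 : (31 : ℝ) ≤ Nat.card G := by exact_mod_cast h31
        have h4 := ineq_central hn31 hZ0 hhigh
        linarith
      · have h4 := lin_central hn hZ0 hhigh4
        linarith
  · -- no central element of odd order
    have hnc : ∀ (i : Fin 4) (k : ℕ), s i ^ k ≠ 1 → s i ^ k ∉ Subgroup.center G := by
      intro i k hk hc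
      exact hw ⟨s i ^ k, hc, Odd.of_dvd_nat (ho i) (orderOf_pow_dvd k), hk⟩
    have hnc1 : ∀ i, s i ∉ Subgroup.center G := by
      intro i
      have := hnc i 1 (by rw [pow_one]; exact hs i)
      rwa [pow_one] at this
    have hZc : Zc s = 0 := by
      unfold Zc
      apply Finset.sum_eq_zero
      intro i _
      rw [if_neg (hnc1 i)]
    by_cases hall : ∀ i, orderOf (s i) = 3
    · have h3 := three_large h2 s hall hnc1
      constructor
      · intro h31
        have hn31 : (31 : ℝ) ≤ Nat.card G := by exact_mod_cast h31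
        linarith
      · linarith
    · push Not at hall
      obtain ⟨i0, hi0⟩ := hall
      have h5 : 5 ≤ orderOf (s i0) := by
        have h6 := three_le_orderOf (ho i0) (hs i0)
        obtain ⟨k, hk⟩ := ho i0
        omega
      have hz5 : 2 / 5 ≤ z (s i0) := by
        have h5' : (5 : ℝ) ≤ orderOf (s i0) := by exact_mod_cast h5
        have h6 : 1 / (orderOf (s i0) : ℝ) ≤ 1 / 5 :=
          one_div_le_one_div_of_le (by norm_num) h5'
        unfold z y
        linarith
      have hlow : 2 / 5 ≤ Zs s := by
        refine le_trans hz5 ?_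
        exact Finset.single_le_sum (f := fun i => z (s i)) (fun i _ => z_nonneg (ho i) (hs i))
          (mem_univ i0)
      rcases le_total (Zs s) (16 / 5) with hZ | hZ
      · have hfs : (Nat.card G : ℝ) * (1 - (Nat.card G : ℝ) / 12) ≤
            ∑ g : G, (chi s (g ^ 2)).re :=
          fs_ge hna (by omega) s ho hprod hgen fun i k hk =>
            rt_le_twelfth h2 (Odd.of_dvd_nat (ho i) (orderOf_pow_dvd k)) hk
        have hq := quad_ge h2 s ho hs hfs
        rw [hM, hZc] at hq
        constructor
        · intro h31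
          have hn31 : (31 : ℝ) ≤ Nat.card G := by exact_mod_cast h31
          have h4 := ineq_middle hn31 hlow hZ
          linarith
        · have h4 := lin_middle hn hlow hZ
          linarith
      · obtain ⟨Y, hY⟩ : ∃ Y, Y = ∑ i, y (s i) := ⟨_, rfl⟩
        have hZY : Zs s = 4 - 3 * Y := by
          unfold Zs z
          rw [Finset.sum_sub_distrib, ← Finset.mul_sum, ← hY, sum_const, card_univ,
            Fintype.card_fin, nsmul_eq_mul]
          push_cast
          ring
        have hY2 : Y ≤ 4 / 15 := by linarith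
        have hY1 : 12 / (Nat.card G : ℝ) ≤ Y := by
          have h6 : 36 / (Nat.card G : ℝ) = 3 * (12 / (Nat.card G : ℝ)) := by ring
          rw [hZY, h6] at hhigh
          linarith
        have hY0 : 0 ≤ Y := le_trans (by positivity) hY1
        have hfs := fs_ge_seven h2 s ho hnc hY (by linarith)
        have hq := quad_ge h2 s ho hs hfs
        rw [hM, hZc] at hq
        constructor
        · intro _
          have h4 := ineq_large hn hZY hY1 hY2
          linarith
        · have h4 := lin_large hn hZY hY0 hY2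
          linarith

/-- the criterion never holds, and linear growth -/
theorem gt_of_odd_gens (hna : ∃ a b : G, a * b ≠ b * a) (hN : 4 ≤ N) (s : Fin N → G)
    (ho : ∀ i, Odd (orderOf (s i))) (hs : ∀ i, s i ≠ 1) (hprod : (List.ofFn s).prod = 1)
    (hgen : Subgroup.closure (Set.range s) = ⊤) :
    (N : ℝ) - 3 < (quadInv s).re ∧
      (Nat.card G : ℝ) * ((N : ℝ) - 3) ^ 2 ≤ 142 * (quadInv s).re := by
  have hn : (0 : ℝ) < Nat.card G := by exact_mod_cast Nat.card_pos
  have h2 := index_ne_two s ho hgen
  have hsq : 0 ≤ (Nat.card G : ℝ) * ((N : ℝ) - 3) ^ 2 := by positivity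
  rcases Nat.even_or_odd (Nat.card G) with heven | hodd
  · rcases Nat.lt_or_ge N 5 with h | h
    · have hN4 : N = 4 := by omega
      subst hN4
      obtain ⟨h3, h4⟩ := four_case hna s ho hs hprod hgen
      have hM : (((4 : ℕ) : ℝ) - 3) = 1 := by norm_num
      rw [hM]
      constructor
      · rcases Nat.lt_or_ge 30 (Nat.card G) with h30 | h30
        · exact h3 (by omega)
        · have h5 := Pool.Agent.H81.OR.even_cases heven h30 h2 hna
          apply three_small h5 s
          intro i
          have hd := orderOf_dvd_natCard (s i)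
          have h6 := three_le_orderOf (ho i) (hs i)
          have h7 : orderOf (s i) ∣ 24 := by
            rcases h5 with h5 | h5
            · rw [h5] at hd
              exact hd.trans (by norm_num)
            · rw [h5] at hd
              exact hd
          have h8 : orderOf (s i) ≤ 24 := Nat.le_of_dvd (by norm_num) h7
          have h9 := ho i
          generalize orderOf (s i) = m at *
          interval_cases m <;> first | rfl | (exfalso; revert h7 h9; decide)
      · linarith
    · obtain ⟨h3, h4⟩ := five_case hna h s ho hs hprod hgen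
      constructor
      · apply h3
        rcases Nat.lt_or_ge 30 (Nat.card G) with h30 | h30
        · omega
        · have h5 := Pool.Agent.H81.OR.even_cases heven h30 h2 hna
          omega
      · linarith
  · refine ⟨Pool.Agent.H78.OD.gt_of_odd hodd hna hN s hs hprod hgen, ?_⟩
    rcases Nat.lt_or_ge N 5 with h | h
    · have hN4 : N = 4 := by omega
      subst hN4
      obtain ⟨h3, h4⟩ := four_case hna s ho hs hprod hgen
      have hM : (((4 : ℕ) : ℝ) - 3) = 1 := by norm_num
      rw [hM]
      linarith
    · obtain ⟨h3, h4⟩ := five_case hna h s ho hs hprod hgen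
      linarith

end Pool.Agent.H78.OR
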